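import Pool.Agent.W172.WG.Defs

set_option autoImplicit false

open Finset

namespace Pool.Agent.W346.WG

open Pool.Agent.W172.WG

theorem mon : S_Mon := by
  intro t ht hanti
  constructor
  · rintro ⟨y, hy0, hys, hyt⟩
    set Y : ℕ → ℝ := fun k => ∑ j ∈ range (k + 1), y j with hY
    set A : ℕ → ℝ := fun k => Y k / ((k : ℝ) + 1) with hA
    have hAY : ∀ k : ℕ, Y k = ((k : ℝ) + 1) * A k := by
      intro k
      rw [hA]
      have : (k : ℝ) + 1 ≠ 0 := by positivity
      field_simp
    have hYs : ∀ k, y (k + 1) = Y (k + 1) - Y k := by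
      intro k
      rw [hY]
      simp only
      rw [sum_range_succ _ (k + 1)]
      ring
    have htel : ∀ n : ℕ, ∑ k ∈ range (n + 1), (A k ^ 2 - 2 * A k * y k) ≤
        -(((n : ℝ) + 1) * A n ^ 2) := by
      intro n
      induction n with
      | zero =>
        have h1 : y 0 = A 0 := by
          have := hAY 0
          simp only [Nat.cast_zero, zero_add, one_mul] at this
          rw [← this, hY]
          simp
        rw [sum_range_one, h1]
        norm_num
        nlinarith
      | succ n ih =>
        rw [sum_range_succ]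
        have h1 := hYs n
        rw [hAY (n + 1), hAY n] at h1
        push_cast at h1 ⊢
        rw [h1]
        have h2 : 0 ≤ ((n : ℝ) + 1) * (A (n + 1) - A n) ^ 2 := by positivity
        nlinarith
    have hle : ∀ n : ℕ, ∑ k ∈ range n, A k ^ 2 ≤ 4 * ∑' k, y k ^ 2 := by
      intro n
      rcases n with _ | n
      · rw [range_zero, sum_empty]
        have : 0 ≤ ∑' k, y k ^ 2 := tsum_nonneg fun k => sq_nonneg _
        linarith
      · have h1 := htel n
        have h2 : 0 ≤ ((n : ℝ) + 1) * A n ^ 2 := by positivity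
        have h3 : ∑ k ∈ range (n + 1), (A k ^ 2 / 2 - 2 * y k ^ 2) ≤
            ∑ k ∈ range (n + 1), (A k ^ 2 - 2 * A k * y k) := by
          refine sum_le_sum fun k _ => ?_
          nlinarith [sq_nonneg (A k - 2 * y k)]
        have h4 : ∑ k ∈ range (n + 1), y k ^ 2 ≤ ∑' k, y k ^ 2 :=
          hys.sum_le_tsum _ fun k _ => sq_nonneg _
        rw [sum_sub_distrib, ← sum_div, ← mul_sum] at h3
        linarith
    have hAs : Summable fun k => A k ^ 2 := summable_of_sum_range_le (fun k => sq_nonneg _) hle
    refine Summable.of_nonneg_of_le (fun k => div_nonneg (ht k) (by positivity)) (fun k => ?_)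
      ((hys.add hAs).mul_left (1 / 2))
    have h1 : t k / ((k : ℝ) + 1) ≤ y k * A k := by
      rw [hA]
      simp only
      rw [← mul_div_assoc]
      exact div_le_div_of_nonneg_right (hyt k) (by positivity)
    nlinarith [sq_nonneg (y k - A k)]
  · intro hs
    refine ⟨fun k => Real.sqrt (t k / ((k : ℝ) + 1)), fun k => Real.sqrt_nonneg _, ?_, ?_⟩
    · refine hs.congr fun k => ?_
      rw [Real.sq_sqrt (div_nonneg (ht k) (by positivity))]
    · intro k
      have h1 : ((k : ℝ) + 1) * Real.sqrt (t k / ((k : ℝ) + 1)) ≤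
          ∑ j ∈ range (k + 1), Real.sqrt (t j / ((j : ℝ) + 1)) := by
        have h2 : ∀ j ∈ range (k + 1), Real.sqrt (t k / ((k : ℝ) + 1)) ≤
            Real.sqrt (t j / ((j : ℝ) + 1)) := by
          intro j hj
          rw [mem_range] at hj
          refine Real.sqrt_le_sqrt ?_
          have h3 : (j : ℝ) + 1 ≤ (k : ℝ) + 1 := by
            have : (j : ℝ) ≤ k := by exact_mod_cast Nat.lt_succ_iff.1 hj
            linarith
          exact div_le_div₀ (ht j) (hanti (by omega)) (by positivity) h3
        have h3 := card_nsmul_le_sum (range (k + 1)) (fun j => Real.sqrt (t j / ((j : ℝ) + 1)))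
          (Real.sqrt (t k / ((k : ℝ) + 1))) h2
        rw [card_range, nsmul_eq_mul] at h3
        push_cast at h3
        exact h3
      have h4 := mul_le_mul_of_nonneg_left h1 (Real.sqrt_nonneg (t k / ((k : ℝ) + 1)))
      have h5 : Real.sqrt (t k / ((k : ℝ) + 1)) * (((k : ℝ) + 1) *
          Real.sqrt (t k / ((k : ℝ) + 1))) = t k := by
        have h6 : Real.sqrt (t k / ((k : ℝ) + 1)) * (((k : ℝ) + 1) *
          Real.sqrt (t k / ((k : ℝ) + 1))) = ((k : ℝ) + 1) * (Real.sqrt (t k / ((k : ℝ) + 1)) *
            Real.sqrt (t k / ((k : ℝ) + 1))) := by ring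
        rw [h6, Real.mul_self_sqrt (div_nonneg (ht k) (by positivity))]
        have : (k : ℝ) + 1 ≠ 0 := by positivity
        field_simp
      rw [h5] at h4
      exact h4

end Pool.Agent.W346.WG
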