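import Pool.Agent.W172.WG.Defs

set_option autoImplicit false

open Finset Filter Topology RealInnerProductSpace

namespace Pool.Agent.W346.WG

open Pool.Agent.W172.WG

theorem suf : S_Suf := by
  intro K _ _ _ D hD1 hDc t ht0 ht1 hnd f φ hr
  have hφ : ∀ m, ‖φ m‖ = 1 := fun m => hD1 _ (hr m).1
  set a : ℕ → ℝ := fun m => |⟪f m, φ m⟫| with ha
  have ha0 : ∀ m, 0 ≤ a m := fun m => abs_nonneg _
  have hsup : ∀ m, ∀ g ∈ D, t m * |⟪f m, g⟫| ≤ a m := by
    intro m g hg
    refine le_trans (mul_le_mul_of_nonneg_left ?_ (ht0 m)) (hr m).2.1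
    have hb : BddAbove (Set.range fun g : D => |⟪f m, (g : K)⟫|) := by
      refine ⟨‖f m‖, ?_⟩
      rintro _ ⟨g', rfl⟩
      have := abs_real_inner_le_norm (f m) (g' : K)
      rw [hD1 _ g'.2, mul_one] at this
      exact this
    exact le_ciSup hb ⟨g, hg⟩
  have hstep : ∀ m, ‖f (m + 1)‖ ^ 2 = ‖f m‖ ^ 2 - a m ^ 2 := by
    intro m
    rw [(hr m).2.2, norm_sub_sq_real, real_inner_smul_right, norm_smul, hφ m, mul_one,
      Real.norm_eq_abs, ha]
    simp only
    rw [sq_abs]
    ring
  have hsum : ∀ n, ∑ k ∈ range n, a k ^ 2 = ‖f 0‖ ^ 2 - ‖f n‖ ^ 2 := by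
    intro n
    induction n with
    | zero => simp
    | succ n ih =>
      rw [sum_range_succ, ih, hstep]
      ring
  have has : Summable fun k => a k ^ 2 := by
    refine summable_of_sum_range_le (fun k => sq_nonneg _) (c := ‖f 0‖ ^ 2) fun n => ?_
    rw [hsum]
    have := sq_nonneg ‖f n‖
    linarith
  have hFanti : Antitone fun n => ‖f n‖ ^ 2 := by
    refine antitone_nat_of_succ_le fun n => ?_
    rw [hstep]
    have := sq_nonneg (a n)
    linarith
  obtain ⟨L, hL⟩ : ∃ L, Tendsto (fun n => ‖f n‖ ^ 2) atTop (𝓝 L) :=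
    ⟨_, tendsto_atTop_ciInf hFanti ⟨0, by rintro _ ⟨n, rfl⟩; exact sq_nonneg _⟩⟩
  have hLle : ∀ n, L ≤ ‖f n‖ ^ 2 := fun n => hFanti.le_of_tendsto hL n
  set A : ℕ → ℝ := fun n => ∑ j ∈ range (n + 1), a j with hA
  have hA0 : ∀ n, 0 ≤ A n := fun n => sum_nonneg fun j _ => ha0 j
  -- good indices
  have hgood : ∀ ε : ℝ, 0 < ε → ∀ n0 : ℕ, ∃ n, n0 ≤ n ∧ a n * A n < ε * t n := by
    intro ε hε n0
    by_contra hcon
    push Not at hcon
    apply hnd
    have hse : 0 < Real.sqrt ε := Real.sqrt_pos.2 hε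
    refine ⟨fun k => a k / Real.sqrt ε + (if k < n0 then 1 else 0), ?_, ?_, ?_⟩
    · intro k
      have := div_nonneg (ha0 k) hse.le
      show 0 ≤ a k / Real.sqrt ε + (if k < n0 then (1 : ℝ) else 0)
      split_ifs <;> linarith
    · have h1 : Summable fun k : ℕ => (if k < n0 then (1 : ℝ) else 0) ^ 2 := by
        refine summable_of_ne_finset_zero (s := range n0) fun k hk => ?_
        rw [mem_range] at hk
        rw [if_neg hk]
        norm_num
      have h2 : Summable fun k => (a k / Real.sqrt ε) ^ 2 := by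
        have : (fun k => (a k / Real.sqrt ε) ^ 2) = fun k => a k ^ 2 / ε := by
          funext k
          rw [div_pow, Real.sq_sqrt hε.le]
        rw [this]
        exact has.div_const _
      refine Summable.of_nonneg_of_le (fun k => sq_nonneg _) (fun k => ?_)
        ((h2.add h1).mul_left 2)
      nlinarith [sq_nonneg (a k / Real.sqrt ε - (if k < n0 then (1 : ℝ) else 0))]
    · intro k
      have hy0 : ∀ j, 0 ≤ a j / Real.sqrt ε + (if j < n0 then (1 : ℝ) else 0) := by
        intro j
        have := div_nonneg (ha0 j) hse.le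
        split_ifs <;> linarith
      by_cases hk : k < n0
      · have h1 : 1 ≤ a k / Real.sqrt ε + (if k < n0 then (1 : ℝ) else 0) := by
          have := div_nonneg (ha0 k) hse.le
          rw [if_pos hk]
          linarith
        have h2 : a k / Real.sqrt ε + (if k < n0 then (1 : ℝ) else 0) ≤
            ∑ j ∈ range (k + 1), (a j / Real.sqrt ε + (if j < n0 then (1 : ℝ) else 0)) :=
          single_le_sum (f := fun j => a j / Real.sqrt ε + (if j < n0 then (1 : ℝ) else 0))
            (fun j _ => hy0 j) (mem_range.2 (Nat.lt_succ_self k))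
        have h3 := ht1 k
        nlinarith
      · push Not at hk
        have h1 := hcon k hk
        have h2 : a k / Real.sqrt ε ≤ a k / Real.sqrt ε + (if k < n0 then (1 : ℝ) else 0) := by
          split_ifs <;> linarith
        have h3 : A k / Real.sqrt ε ≤
            ∑ j ∈ range (k + 1), (a j / Real.sqrt ε + (if j < n0 then (1 : ℝ) else 0)) := by
          rw [hA]
          simp only
          rw [sum_div]
          refine sum_le_sum fun j _ => ?_
          split_ifs <;> linarith
        have h4 : t k ≤ (a k / Real.sqrt ε) * (A k / Real.sqrt ε) := by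
          rw [div_mul_div_comm, Real.mul_self_sqrt hε.le, le_div_iff₀ hε]
          linarith
        refine h4.trans (mul_le_mul h2 h3 (div_nonneg (hA0 k) hse.le) (hy0 k))
  -- consequences at a good index
  have hg1 : ∀ ε : ℝ, 0 < ε → ∀ n, a n * A n < ε * t n → 0 < t n := by
    intro ε hε n h1
    have h2 : 0 < ε * t n := lt_of_le_of_lt (mul_nonneg (ha0 n) (hA0 n)) h1
    exact (mul_pos_iff_of_pos_left hε).1 h2
  have hg2 : ∀ ε : ℝ, 0 < ε → ∀ n, a n * A n < ε * t n → ∀ g ∈ D, |⟪f n, g⟫| * A n ≤ ε := by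
    intro ε hε n h1 g hg
    have h2 := hg1 ε hε n h1
    have h3 := mul_le_mul_of_nonneg_right (hsup n g hg) (hA0 n)
    have h4 : t n * (|⟪f n, g⟫| * A n) ≤ t n * ε := by nlinarith
    exact le_of_mul_le_mul_left h4 h2
  have hdiff : ∀ m k, f m - f (m + k) = ∑ j ∈ range k, ⟪f (m + j), φ (m + j)⟫ • φ (m + j) := by
    intro m k
    induction k with
    | zero => simp
    | succ k ih =>
      rw [sum_range_succ, ← ih, ← add_assoc, (hr (m + k)).2.2]
      abel
  have hg3 : ∀ ε : ℝ, 0 < ε → ∀ n, a n * A n < ε * t n → ∀ m, m ≤ n →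
      ‖f m - f n‖ ^ 2 ≤ ‖f m‖ ^ 2 - ‖f n‖ ^ 2 + 2 * ε := by
    intro ε hε n h1 m hmn
    obtain ⟨k, rfl⟩ := Nat.exists_eq_add_of_le hmn
    have h2 : |⟪f m - f (m + k), f (m + k)⟫| ≤ ε := by
      rw [hdiff, sum_inner]
      have h3 : ∀ j ∈ range k, |⟪⟪f (m + j), φ (m + j)⟫ • φ (m + j), f (m + k)⟫| * t (m + k) ≤
          a (m + j) * a (m + k) := by
        intro j _
        rw [real_inner_smul_left, abs_mul, real_inner_comm (f (m + k)) (φ (m + j))]
        have h4 := hsup (m + k) _ (hr (m + j)).1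
        have h5 := mul_le_mul_of_nonneg_left h4 (ha0 (m + j))
        calc |⟪f (m + j), φ (m + j)⟫| * |⟪f (m + k), φ (m + j)⟫| * t (m + k)
            = a (m + j) * (t (m + k) * |⟪f (m + k), φ (m + j)⟫|) := by
              rw [ha]
              simp only
              ring
          _ ≤ a (m + j) * a (m + k) := h5
      have h6 : |∑ j ∈ range k, ⟪⟪f (m + j), φ (m + j)⟫ • φ (m + j), f (m + k)⟫| * t (m + k) ≤
          (∑ j ∈ range k, a (m + j)) * a (m + k) := by
        rw [sum_mul]
        refine le_trans ?_ (sum_le_sum h3)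
        rw [← sum_mul]
        exact mul_le_mul_of_nonneg_right (abs_sum_le_sum_abs _ _) (ht0 _)
      have h7 : ∑ j ∈ range k, a (m + j) ≤ A (m + k) := by
        rw [hA]
        simp only
        have h8 : ∑ j ∈ range k, a (m + j) = ∑ j ∈ Ico m (m + k), a j := by
          rw [sum_Ico_eq_sum_range]
          simp
        rw [h8]
        refine sum_le_sum_of_subset_of_nonneg ?_ fun j _ _ => ha0 j
        intro j hj
        rw [Finset.mem_Ico] at hj
        rw [mem_range]
        omega
      have h8 := mul_le_mul_of_nonneg_right h7 (ha0 (m + k))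
      have h9 := hg1 ε hε _ h1
      have h10 : |∑ j ∈ range k, ⟪⟪f (m + j), φ (m + j)⟫ • φ (m + j), f (m + k)⟫| * t (m + k) ≤
          ε * t (m + k) := by nlinarith
      exact le_of_mul_le_mul_right h10 h9
    have h3 : ‖f m‖ ^ 2 = ‖f m - f (m + k)‖ ^ 2 + 2 * ⟪f m - f (m + k), f (m + k)⟫ +
        ‖f (m + k)‖ ^ 2 := by
      have h4 := norm_add_sq_real (f m - f (m + k)) (f (m + k))
      rw [sub_add_cancel] at h4
      exact h4
    have h4 := abs_le.1 h2
    linarith [h4.1]
  -- Cauchy
  have hcau : CauchySeq f := by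
    rw [Metric.cauchySeq_iff']
    intro δ hδ
    set ε : ℝ := δ ^ 2 / 32 with hε
    have hε0 : 0 < ε := by positivity
    obtain ⟨N, hN⟩ := (hL.eventually_lt_const (show L < L + ε by linarith)).exists
    refine ⟨N, fun m hm => ?_⟩
    obtain ⟨n, hn1, hn2⟩ := hgood ε hε0 m
    have h1 := hg3 ε hε0 n hn2 m hn1
    have h2 := hg3 ε hε0 n hn2 N (le_trans hm hn1)
    have h3 : ‖f m‖ ^ 2 ≤ ‖f N‖ ^ 2 := hFanti hm
    have h4 := hLle n
    have h5 : ∀ v : K, ‖v‖ ^ 2 ≤ 3 * ε → ‖v‖ < δ / 2 := by
      intro v hv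
      refine lt_of_pow_lt_pow_left₀ 2 (by positivity) ?_
      refine lt_of_le_of_lt hv ?_
      rw [hε]
      nlinarith [sq_nonneg δ, mul_pos hδ hδ]
    have h6 := h5 _ (le_trans h1 (by linarith))
    have h7 := h5 _ (le_trans h2 (by linarith))
    rw [dist_eq_norm]
    have h8 : f m - f N = (f m - f n) - (f N - f n) := by abel
    rw [h8]
    refine lt_of_le_of_lt (norm_sub_le _ _) ?_
    linarith
  obtain ⟨h, hh⟩ := cauchySeq_tendsto_of_complete hcau
  have hh0 : h = 0 := by
    apply hDc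
    intro g hg
    by_contra hne
    have hlim : Tendsto (fun n => |⟪f n, g⟫|) atTop (𝓝 |⟪h, g⟫|) :=
      (hh.inner tendsto_const_nhds).abs
    set η : ℝ := |⟪h, g⟫| / 2 with hη
    have hη0 : 0 < η := by
      have := abs_pos.2 hne
      positivity
    obtain ⟨N, hN⟩ := eventually_atTop.1
      (hlim.eventually_const_lt (show η < |⟪h, g⟫| by rw [hη]; linarith))
    by_cases hall : ∀ j, a j = 0
    · obtain ⟨n, hn1, hn2⟩ := hgood 1 one_pos N
      have h1 := hg1 1 one_pos n hn2
      have h2 := hsup n g hg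
      rw [hall n] at h2
      have h3 := hN n hn1
      nlinarith
    · push Not at hall
      obtain ⟨j, hj⟩ := hall
      have hj0 : 0 < a j := lt_of_le_of_ne (ha0 j) (Ne.symm hj)
      obtain ⟨n, hn1, hn2⟩ := hgood (η * a j) (mul_pos hη0 hj0) (max N j)
      have h1 := hg2 _ (mul_pos hη0 hj0) n hn2 g hg
      have h2 : a j ≤ A n := by
        rw [hA]
        exact single_le_sum (f := a) (fun i _ => ha0 i)
          (mem_range.2 (Nat.lt_succ_of_le (le_trans (le_max_right _ _) hn1)))
      have h3 := hN n (le_trans (le_max_left _ _) hn1)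
      have h4 : η * a j < |⟪f n, g⟫| * A n := by
        calc η * a j < |⟪f n, g⟫| * a j := mul_lt_mul_of_pos_right h3 hj0
          _ ≤ |⟪f n, g⟫| * A n := mul_le_mul_of_nonneg_left h2 (abs_nonneg _)
      linarith
  have h1 := hh.norm
  rw [hh0, norm_zero] at h1
  exact h1

end Pool.Agent.W346.WG
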